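import Mathlib

set_option autoImplicit false

open MeasureTheory Set

namespace Pool.Agent.Results.MP_ebd0f7_an.WeakTypeConstant

/-- `c` is admissible, exactly as in the problem file: for every compact `E` and every choice of
radii `δ x > 0` (`x ∈ E`) there is a countable (possibly finite) set `F ⊆ E` of centres such that
the intervals `(x - δ x, x + δ x)`, `x ∈ F`, are pairwise disjoint and the sum of their lengths is
at least `c |E|`. -/
def Admissible (c : ℝ) : Prop :=
  ∀ E : Set ℝ, IsCompact E → ∀ δ : ℝ → ℝ, (∀ x ∈ E, 0 < δ x) →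
    ∃ F : Set ℝ, F ⊆ E ∧ F.Countable ∧
      (∀ x ∈ F, ∀ y ∈ F, x ≠ y →
        Disjoint (Set.Ioo (x - δ x) (x + δ x)) (Set.Ioo (y - δ y) (y + δ y))) ∧
      ENNReal.ofReal c * volume E ≤ ∑' x : F, volume (Set.Ioo ((x : ℝ) - δ x) (x + δ x))

/-- The centred Hardy-Littlewood maximal operator on the line,
`Mf(x) = sup_{r > 0} (1/2r) ∫_{x-r}^{x+r} |f|`, is of weak type (1,1) with constant `A`:
`|{x : Mf(x) > t}| ≤ (A/t) ‖f‖₁` for all integrable `f` and all `t > 0`. -/
def WeakType (A : ℝ) : Prop :=
  ∀ f : ℝ → ℝ, Integrable f → ∀ t : ℝ, 0 < t →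
    volume {x : ℝ | ∃ r : ℝ, 0 < r ∧ t < (∫ y in Set.Ioo (x - r) (x + r), |f y|) / (2 * r)}
      ≤ ENNReal.ofReal (A * (∫ y, |f y|) / t)

/-- `C` is the best constant in the weak type (1,1) inequality for the centred
Hardy-Littlewood maximal operator on the line. -/
def IsBestWeakConstant (C : ℝ) : Prop :=
  WeakType C ∧ ∀ A : ℝ, WeakType A → C ≤ A

lemma isOpen_U (f : ℝ → ℝ) (hf : Integrable f) (t : ℝ) (ht : 0 < t) :
    IsOpen {x : ℝ | ∃ r : ℝ, 0 < r ∧ t < (∫ y in Set.Ioo (x - r) (x + r), |f y|) / (2 * r)} := by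
  rw [Metric.isOpen_iff]
  rintro x ⟨r, hr, hx⟩
  set J := ∫ y in Set.Ioo (x - r) (x + r), |f y| with hJ
  have h1 : t * (2 * r) < J := by rwa [lt_div_iff₀ (by positivity)] at hx
  set κ := (J - t * (2 * r)) / (4 * t) with hκ
  have hκ0 : 0 < κ := by rw [hκ]; apply div_pos <;> linarith
  refine ⟨κ, hκ0, fun y hy => ?_⟩
  rw [Metric.mem_ball, Real.dist_eq] at hy
  obtain ⟨hy1, hy2⟩ := abs_lt.mp hy
  refine ⟨r + κ, by linarith, ?_⟩
  rw [lt_div_iff₀ (by positivity)]
  have h2 : J ≤ ∫ z in Set.Ioo (y - (r + κ)) (y + (r + κ)), |f z| := by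
    apply setIntegral_mono_set hf.abs.integrableOn
    · exact Filter.Eventually.of_forall fun z => abs_nonneg _
    · apply LE.le.eventuallyLE
      intro z hz
      exact ⟨by linarith [hz.1], by linarith [hz.2]⟩
  have h3 : t * (2 * (r + κ)) < J := by
    have : 4 * t * κ = J - t * (2 * r) := by rw [hκ]; field_simp
    nlinarith
  linarith

theorem weak_of_adm {A : ℝ} (hA : 0 < A) (h : Admissible (1 / A)) : WeakType A := by
  intro f hf t ht
  rw [(isOpen_U f hf t ht).measure_eq_iSup_isCompact]
  refine iSup_le fun K => iSup_le fun hKU => iSup_le fun hK => ?_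
  choose! δ hδ using fun x (hx : x ∈ K) => hKU hx
  obtain ⟨F, hFK, hFc, hdis, hsum⟩ := h K hK δ (fun x hx => (hδ x hx).1)
  have : Countable F := hFc.to_subtype
  have h1 : ∑' x : F, volume (Ioo ((x : ℝ) - δ x) (x + δ x))
      ≤ ENNReal.ofReal ((∫ y, |f y|) / t) := by
    calc ∑' x : F, volume (Ioo ((x : ℝ) - δ x) (x + δ x))
        ≤ ∑' x : F, ENNReal.ofReal (1 / t) *
            ∫⁻ y in Ioo ((x : ℝ) - δ x) (x + δ x), ENNReal.ofReal |f y| := by
          apply ENNReal.tsum_le_tsum
          intro x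
          have hx := hδ x (hFK x.2)
          rw [← ofReal_integral_eq_lintegral_ofReal hf.abs.integrableOn
            (Filter.Eventually.of_forall fun z => abs_nonneg _), ← ENNReal.ofReal_mul (by positivity),
            Real.volume_Ioo]
          apply ENNReal.ofReal_le_ofReal
          have h2 := hx.2
          rw [lt_div_iff₀ (by linarith [hx.1])] at h2
          have h3 : 1 / t * (∫ y in Ioo ((x : ℝ) - δ x) (x + δ x), |f y|)
              = (∫ y in Ioo ((x : ℝ) - δ x) (x + δ x), |f y|) / t := by ring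
          rw [h3, le_div_iff₀ ht]
          linarith
      _ = ENNReal.ofReal (1 / t) *
            ∫⁻ y in ⋃ x : F, Ioo ((x : ℝ) - δ x) (x + δ x), ENNReal.ofReal |f y| := by
          rw [ENNReal.tsum_mul_left, lintegral_iUnion (fun x => measurableSet_Ioo)]
          intro x y hxy
          exact hdis x x.2 y y.2 (fun e => hxy (Subtype.ext e))
      _ ≤ ENNReal.ofReal (1 / t) * ∫⁻ y, ENNReal.ofReal |f y| := by
          gcongr
          exact Measure.restrict_le_self
      _ = ENNReal.ofReal ((∫ y, |f y|) / t) := by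
          rw [← ofReal_integral_eq_lintegral_ofReal hf.abs
            (Filter.Eventually.of_forall fun z => abs_nonneg _), ← ENNReal.ofReal_mul (by positivity)]
          congr 1
          ring
  have h2 : ENNReal.ofReal (1 / A) * volume K ≤ ENNReal.ofReal ((∫ y, |f y|) / t) := hsum.trans h1
  calc volume K = ENNReal.ofReal A * (ENNReal.ofReal (1 / A) * volume K) := by
        rw [← mul_assoc, ← ENNReal.ofReal_mul hA.le]
        have : A * (1 / A) = 1 := by field_simp
        rw [this]; simp
    _ ≤ ENNReal.ofReal A * ENNReal.ofReal ((∫ y, |f y|) / t) := by gcongr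
    _ = ENNReal.ofReal (A * (∫ y, |f y|) / t) := by
        rw [← ENNReal.ofReal_mul hA.le]; congr 1; ring

/-- finite families of pairwise disjoint intervals with centres in `E` -/
def Pack (E : Set ℝ) (δ : ℝ → ℝ) (s : Finset ℝ) : Prop :=
  (∀ x ∈ s, x ∈ E) ∧ ∀ x ∈ s, ∀ y ∈ s, x ≠ y →
    Disjoint (Set.Ioo (x - δ x) (x + δ x)) (Set.Ioo (y - δ y) (y + δ y))

/-- integrals of shift differences of a monotone function -/
lemma shift_int {V : ℝ → ℝ} (hV : Monotone V) (η u v : ℝ) :
    ∫ t in u..v, (V (t + η) - V (t - η))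
      = (∫ t in (v - η)..(v + η), V t) - ∫ t in (u - η)..(u + η), V t := by
  have hi : ∀ a b : ℝ, IntervalIntegrable V volume a b := fun a b => hV.intervalIntegrable
  have h1 : ∫ t in u..v, V (t + η) = ∫ t in (u + η)..(v + η), V t :=
    intervalIntegral.integral_comp_add_right V η
  have h2 : ∫ t in u..v, V (t - η) = ∫ t in (u - η)..(v - η), V t :=
    intervalIntegral.integral_comp_sub_right V η
  have hm1 : Monotone fun t => V (t + η) := fun a b hab => hV (by linarith)
  have hm2 : Monotone fun t => V (t - η) := fun a b hab => hV (by linarith)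
  rw [intervalIntegral.integral_sub hm1.intervalIntegrable hm2.intervalIntegrable, h1, h2]
  have h3 := intervalIntegral.integral_add_adjacent_intervals (hi (u - η) (u + η)) (hi (u + η) (v + η))
  have h4 := intervalIntegral.integral_add_adjacent_intervals (hi (u - η) (v - η)) (hi (v - η) (v + η))
  linarith

lemma int_lower {V : ℝ → ℝ} (hV : Monotone V) {a b : ℝ} (hab : a ≤ b) :
    (b - a) * V a ≤ ∫ t in a..b, V t := by
  have h := intervalIntegral.integral_mono_on (μ := volume) hab
    (intervalIntegrable_const (c := V a)) (hV.intervalIntegrable (a := a) (b := b))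
    (fun x hx => hV hx.1)
  simpa using h

lemma int_upper {V : ℝ → ℝ} (hV : Monotone V) {a b : ℝ} (hab : a ≤ b) :
    ∫ t in a..b, V t ≤ (b - a) * V b := by
  have h := intervalIntegral.integral_mono_on (μ := volume) hab
    (hV.intervalIntegrable (a := a) (b := b)) (intervalIntegrable_const (c := V b))
    (fun x hx => hV hx.2)
  simpa using h

theorem core {A : ℝ} (hA : 0 < A) (hW : WeakType A) {E : Set ℝ} {R0 : ℝ} (hE : ∀ x ∈ E, |x| ≤ R0)
    {δ : ℝ → ℝ} (hδ : ∀ x ∈ E, 0 < δ x) {S : ℝ} (hS : ∀ s : Finset ℝ, Pack E δ s →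
      ∑ x ∈ s, 2 * δ x ≤ S) : volume E ≤ ENNReal.ofReal (A * S) := by
  have hS0 : 0 ≤ S := by simpa using hS ∅ ⟨by simp, by simp⟩
  have hδS : ∀ x ∈ E, 2 * δ x ≤ S := fun x hx => by
    simpa using hS {x} ⟨by simpa using hx, by simp⟩
  set P : ℝ → Set ℝ := fun t => {v | ∃ s : Finset ℝ, Pack E δ s ∧ (∀ x ∈ s, x + δ x ≤ t) ∧
    v = ∑ x ∈ s, 2 * δ x} with hP
  have hPn : ∀ t, (P t).Nonempty := fun t => ⟨0, ∅, ⟨by simp, by simp⟩, by simp, by simp⟩
  have hPb : ∀ t, BddAbove (P t) := fun t => ⟨S, by rintro v ⟨s, hs, -, rfl⟩; exact hS s hs⟩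
  set V : ℝ → ℝ := fun t => sSup (P t) with hVdef
  have hVmono : Monotone V := fun a b hab => by
    apply csSup_le_csSup (hPb b) (hPn a)
    rintro v ⟨s, hs, hs2, rfl⟩
    exact ⟨s, hs, fun x hx => (hs2 x hx).trans hab, rfl⟩
  have hV0 : ∀ t, 0 ≤ V t := fun t => le_csSup (hPb t) ⟨∅, ⟨by simp, by simp⟩, by simp, by simp⟩
  have hVS : ∀ t, V t ≤ S := fun t => csSup_le (hPn t) (by rintro v ⟨s, hs, -, rfl⟩; exact hS s hs)
  have hstep : ∀ x ∈ E, V (x - δ x) + 2 * δ x ≤ V (x + δ x) := by
    intro x hx
    have hx0 := hδ x hx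
    rw [← le_sub_iff_add_le]
    apply csSup_le (hPn _)
    rintro v ⟨s, hs, hs2, rfl⟩
    have hxs : x ∉ s := fun hxs => by have := hs2 x hxs; linarith
    have hpk : Pack E δ (insert x s) := by
      refine ⟨?_, ?_⟩
      · intro y hy
        rcases Finset.mem_insert.mp hy with rfl | hy
        · exact hx
        · exact hs.1 y hy
      · have key : ∀ y ∈ s, Disjoint (Set.Ioo (x - δ x) (x + δ x)) (Set.Ioo (y - δ y) (y + δ y)) := by
          intro y hy
          rw [Set.disjoint_left]
          intro z hz hz'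
          have := hs2 y hy
          linarith [hz.1, hz'.2]
        intro y hy z hz hyz
        rw [Finset.mem_insert] at hy hz
        rcases hy with hy | hy <;> rcases hz with hz | hz
        · exact absurd (hy.trans hz.symm) hyz
        · rw [hy]; exact key z hz
        · rw [hz]; exact (key y hy).symm
        · exact hs.2 y hy z hz hyz
    have hmem : ∑ y ∈ insert x s, 2 * δ y ∈ P (x + δ x) := by
      refine ⟨insert x s, hpk, ?_, rfl⟩
      intro y hy
      rcases Finset.mem_insert.mp hy with rfl | hy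
      · exact le_rfl
      · have := hs2 y hy; linarith
    have := le_csSup (hPb _) hmem
    rw [Finset.sum_insert hxs] at this
    linarith
  have hVlow : ∀ t, t < -R0 → V t = 0 := by
    intro t ht
    apply le_antisymm _ (hV0 t)
    apply csSup_le (hPn t)
    rintro v ⟨s, hs, hs2, rfl⟩
    have : s = ∅ := by
      rw [Finset.eq_empty_iff_forall_notMem]
      intro x hx
      have h1 := hs2 x hx
      have h2 := hδ x (hs.1 x hx)
      have h3 := abs_le.mp (hE x (hs.1 x hx))
      linarith [h3.1]
    subst this; simp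
  have hVhigh : ∀ a b, R0 + S ≤ a → R0 + S ≤ b → V a = V b := by
    have hh : ∀ a b, R0 + S ≤ a → V b ≤ V a := by
      intro a b ha
      apply csSup_le_csSup (hPb a) (hPn b)
      rintro v ⟨s, hs, hs2, rfl⟩
      refine ⟨s, hs, fun x hx => ?_, rfl⟩
      have h3 := abs_le.mp (hE x (hs.1 x hx))
      have h4 := hδS x (hs.1 x hx)
      have h2 := hδ x (hs.1 x hx)
      linarith [h3.2]
    intro a b ha hb
    exact le_antisymm (hh b a hb) (hh a b ha)
  -- the truncated sets
  have hmain : ∀ n : ℕ, ∀ l : ℝ, 0 < l → l < 1 →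
      volume {x | x ∈ E ∧ 1 / ((n : ℝ) + 1) ≤ δ x} ≤ ENNReal.ofReal (A * S / l) := by
    intro n l hl0 hl1
    set d : ℝ := 1 / ((n : ℝ) + 1) with hd
    have hd0 : 0 < d := by positivity
    set η : ℝ := d * (1 - l) / 2 with hη
    have hη0 : 0 < η := by rw [hη]; apply div_pos (mul_pos hd0 (by linarith)); norm_num
    set g : ℝ → ℝ := fun t => (V (t + η) - V (t - η)) / (2 * η) with hg
    have hg0 : ∀ t, 0 ≤ g t := fun t => div_nonneg (sub_nonneg.mpr (hVmono (by linarith))) (by positivity)
    set R : ℝ := |R0| + S + η + 1 with hR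
    have hRpos : 0 < R := by rw [hR]; positivity
    have hgz : ∀ t, t ∉ Ioc (-R) R → g t = 0 := by
      intro t ht
      rw [Set.mem_Ioc, not_and_or, not_lt, not_le] at ht
      have habs := abs_le.mp (le_refl |R0|)
      rcases ht with ht | ht
      · have h1 : V (t + η) = 0 := hVlow _ (by linarith [habs.2])
        have h2 : V (t - η) = 0 := hVlow _ (by linarith [habs.2])
        simp only [hg, h1, h2]; simp
      · have h1 : V (t + η) = V (t - η) := hVhigh _ _ (by linarith [habs.2]) (by linarith [habs.2])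
        simp only [hg, h1]; simp
    have hgm : ∀ a b : ℝ, IntervalIntegrable g volume a b := by
      intro a b
      have hm1 : Monotone fun t => V (t + η) := fun a b hab => hVmono (by linarith)
      have hm2 : Monotone fun t => V (t - η) := fun a b hab => hVmono (by linarith)
      exact (hm1.intervalIntegrable.sub hm2.intervalIntegrable).div_const _
    have hgi : Integrable g := by
      rw [← integrableOn_iff_integrable_of_support_subset (s := Ioc (-R) R)]
      · exact (intervalIntegrable_iff_integrableOn_Ioc_of_le (by linarith)).mp (hgm (-R) R)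
      · intro t ht
        by_contra hcon
        exact ht (hgz t hcon)
    have hform : ∀ u v : ℝ, ∫ t in u..v, g t
        = ((∫ t in (v - η)..(v + η), V t) - ∫ t in (u - η)..(u + η), V t) / (2 * η) := by
      intro u v
      simp only [hg]
      rw [intervalIntegral.integral_div, shift_int hVmono]
    have hgS : ∫ t, |g t| ≤ S := by
      have h1 : ∫ t, |g t| = ∫ t in (-R)..R, g t := by
        rw [intervalIntegral.integral_of_le (by linarith),
          setIntegral_eq_integral_of_forall_compl_eq_zero hgz]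
        exact integral_congr_ae (Filter.Eventually.of_forall fun t => abs_of_nonneg (hg0 t))
      rw [h1, hform]
      rw [div_le_iff₀ (by positivity)]
      have h2 := int_upper hVmono (show R - η ≤ R + η by linarith)
      have h3 := int_lower hVmono (show -R - η ≤ -R + η by linarith)
      have h4 := hVS (R + η)
      have h5 := hV0 (-R - η)
      nlinarith
    have hw := hW g hgi l hl0
    refine (measure_mono ?_).trans (hw.trans (ENNReal.ofReal_le_ofReal ?_))
    · rintro x ⟨hxE, hxd⟩
      have hx0 := hδ x hxE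
      refine ⟨δ x + η, by linarith, ?_⟩
      rw [lt_div_iff₀ (by linarith)]
      have h1 : ∫ y in Ioo (x - (δ x + η)) (x + (δ x + η)), |g y|
          = ∫ t in (x - (δ x + η))..(x + (δ x + η)), g t := by
        rw [intervalIntegral.integral_of_le (by linarith), ← integral_Ioc_eq_integral_Ioo]
        exact setIntegral_congr_fun measurableSet_Ioc (fun t _ => abs_of_nonneg (hg0 t))
      rw [h1, hform]
      have h2 := int_lower hVmono (show x + (δ x + η) - η ≤ x + (δ x + η) + η by linarith)
      have h3 := int_upper hVmono (show x - (δ x + η) - η ≤ x - (δ x + η) + η by linarith)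
      have h4 := hstep x hxE
      have e1 : x + (δ x + η) - η = x + δ x := by ring
      have e2 : x - (δ x + η) + η = x - δ x := by ring
      rw [e1] at h2 ⊢
      rw [e2] at h3 ⊢
      have h5 : 2 * δ x ≤ ((∫ t in (x + δ x)..(x + (δ x + η) + η), V t)
          - ∫ t in (x - (δ x + η) - η)..(x - δ x), V t) / (2 * η) := by
        rw [le_div_iff₀ (by positivity)]
        nlinarith
      have h6 : l * (2 * (δ x + η)) < 2 * δ x := by
        have : η * l < (1 - l) * δ x := by
          have h7 : η ≤ δ x * (1 - l) / 2 := by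
            rw [hη]; apply div_le_div_of_nonneg_right _ (by norm_num)
            exact mul_le_mul_of_nonneg_right hxd (by linarith)
          nlinarith [mul_pos hx0 (sub_pos.mpr hl1)]
        linarith
      linarith
    · apply div_le_div_of_nonneg_right _ hl0.le
      exact mul_le_mul_of_nonneg_left hgS hA.le
  have hmain2 : ∀ n : ℕ, volume {x | x ∈ E ∧ 1 / ((n : ℝ) + 1) ≤ δ x} ≤ ENNReal.ofReal (A * S) := by
    intro n
    have hcont : Filter.Tendsto (fun l : ℝ => ENNReal.ofReal (A * S / l)) (nhdsWithin 1 (Iio 1))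
        (nhds (ENNReal.ofReal (A * S / 1))) := by
      apply Filter.Tendsto.mono_left _ nhdsWithin_le_nhds
      apply (ENNReal.continuous_ofReal.tendsto _).comp
      exact Filter.Tendsto.div tendsto_const_nhds Filter.tendsto_id one_ne_zero
    rw [div_one] at hcont
    apply ge_of_tendsto hcont
    have : Ioo (0 : ℝ) 1 ∈ nhdsWithin (1 : ℝ) (Iio 1) := Ioo_mem_nhdsLT (by norm_num)
    filter_upwards [this] with l hl
    exact hmain n l hl.1 hl.2
  have hEU : E = ⋃ n : ℕ, {x | x ∈ E ∧ 1 / ((n : ℝ) + 1) ≤ δ x} := by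
    ext x
    simp only [Set.mem_iUnion, Set.mem_ofPred_eq]
    constructor
    · intro hx
      obtain ⟨n, hn⟩ := exists_nat_one_div_lt (hδ x hx)
      exact ⟨n, hx, hn.le⟩
    · rintro ⟨n, hx, -⟩; exact hx
  have hmonoE : Monotone fun n : ℕ => {x | x ∈ E ∧ 1 / ((n : ℝ) + 1) ≤ δ x} := by
    intro m n hmn x hx
    refine ⟨hx.1, le_trans ?_ hx.2⟩
    apply one_div_le_one_div_of_le (by positivity)
    have : (m : ℝ) ≤ n := by exact_mod_cast hmn
    linarith
  rw [hEU, hmonoE.measure_iUnion]
  exact iSup_le hmain2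


lemma mem_of_pack_sum {E : Set ℝ} {δ : ℝ → ℝ} {c : ℝ} (hc : 0 ≤ c) (hfin : volume E ≠ ⊤)
    (hcon : ¬ ∃ F : Set ℝ, F ⊆ E ∧ F.Countable ∧
      (∀ x ∈ F, ∀ y ∈ F, x ≠ y →
        Disjoint (Set.Ioo (x - δ x) (x + δ x)) (Set.Ioo (y - δ y) (y + δ y))) ∧
      ENNReal.ofReal c * volume E ≤ ∑' x : F, volume (Set.Ioo ((x : ℝ) - δ x) (x + δ x)))
    (hδ : ∀ x ∈ E, 0 < δ x) (s : Finset ℝ) (hs : Pack E δ s) :
    ∑ x ∈ s, 2 * δ x < c * (volume E).toReal := by
  by_contra hlt
  push Not at hlt
  apply hcon
  refine ⟨(s : Set ℝ), fun x hx => hs.1 x (by simpa using hx), s.countable_toSet, ?_, ?_⟩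
  · intro x hx y hy hxy
    exact hs.2 x (by simpa using hx) y (by simpa using hy) hxy
  · have h1 : ∑' x : (s : Set ℝ), volume (Set.Ioo ((x : ℝ) - δ x) (x + δ x))
        = ∑ x ∈ s, volume (Set.Ioo ((x : ℝ) - δ x) (x + δ x)) :=
      Finset.tsum_subtype' s (fun x => volume (Set.Ioo ((x : ℝ) - δ x) (x + δ x)))
    rw [h1]
    have h2 : ∑ x ∈ s, volume (Set.Ioo ((x : ℝ) - δ x) (x + δ x))
        = ENNReal.ofReal (∑ x ∈ s, 2 * δ x) := by
      rw [ENNReal.ofReal_sum_of_nonneg]
      · apply Finset.sum_congr rfl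
        intro x hx
        rw [Real.volume_Ioo]
        congr 1; ring
      · intro x hx
        have := hδ x (hs.1 x hx)
        linarith
    rw [h2, ← ENNReal.ofReal_toReal hfin, ← ENNReal.ofReal_mul hc]
    exact ENNReal.ofReal_le_ofReal hlt

theorem adm_of_weak {A : ℝ} (hA : 0 < A) (hW : WeakType A) : Admissible (1 / A) := by
  intro E hE δ hδ
  by_cases h0 : volume E = 0
  · exact ⟨∅, by simp, by simp, by simp, by simp [h0]⟩
  by_contra hcon
  have hfin : volume E ≠ ⊤ := hE.measure_lt_top.ne
  set K : ℝ := 1 / A * (volume E).toReal with hK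
  have hpk : ∀ s : Finset ℝ, Pack E δ s → ∑ x ∈ s, 2 * δ x < K := fun s hs =>
    mem_of_pack_sum (by positivity) hfin hcon hδ s hs
  have hne : E.Nonempty := by
    rw [Set.nonempty_iff_ne_empty]; rintro rfl; simp at h0
  set a := sInf E with ha
  set b := sSup E with hb
  have haE : a ∈ E := hE.sInf_mem hne
  have hbE : b ∈ E := hE.sSup_mem hne
  have hEa : ∀ x ∈ E, a ≤ x := fun x hx => csInf_le hE.bddBelow hx
  have hEb : ∀ x ∈ E, x ≤ b := fun x hx => le_csSup hE.bddAbove hx
  have hδa := hδ a haE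
  have hδb := hδ b hbE
  set ε := min (δ a) (δ b) with hε
  have hε0 : 0 < ε := lt_min hδa hδb
  have hεa : ε ≤ δ a := min_le_left _ _
  have hεb : ε ≤ δ b := min_le_right _ _
  set T := b - a + ε with hT
  set E' : Set ℝ := (E ∪ Ioo b (b + ε)) ∪ (fun x => x + T) '' E with hE'
  set δ' : ℝ → ℝ := fun x => if x ≤ b then δ x else if x < b + ε then δ a + δ b else δ (x - T)
    with hδ'
  have d1 : ∀ x, x ≤ b → δ' x = δ x := fun x hx => by simp [hδ', hx]
  have d2 : ∀ x, b < x → x < b + ε → δ' x = δ a + δ b := fun x hx hx2 => by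
    simp [hδ', not_le.mpr hx, hx2]
  have d3 : ∀ x, b + ε ≤ x → δ' x = δ (x - T) := fun x hx => by
    simp [hδ', not_le.mpr (show b < x by linarith), not_lt.mpr hx]
  have m1 : ∀ x ∈ E', x ≤ b → x ∈ E := by
    rintro x ((hx | hx) | ⟨y, hy, rfl⟩) hxb
    · exact hx
    · exact absurd hx.1 (not_lt.mpr hxb)
    · have := hEa y hy
      simp only [hT] at hxb
      linarith
  have m3 : ∀ x ∈ E', b + ε ≤ x → x - T ∈ E := by
    rintro x ((hx | hx) | ⟨y, hy, rfl⟩) hxb
    · have := hEb x hx; linarith
    · exact absurd hx.2 (not_lt.mpr hxb)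
    · simpa using hy
  have hδ'0 : ∀ x ∈ E', 0 < δ' x := by
    intro x hx
    rcases le_or_gt x b with h | h
    · rw [d1 x h]; exact hδ x (m1 x hx h)
    · rcases lt_or_ge x (b + ε) with h' | h'
      · rw [d2 x h h']; linarith
      · rw [d3 x h']; exact hδ _ (m3 x hx h')
  have hbound : ∀ x ∈ E', |x| ≤ |a| + |b| + T + ε := by
    have hT0 : 0 ≤ T := by have := hEa b hbE; rw [hT]; linarith
    have ha' := abs_le.mp (le_refl |a|)
    have hb' := abs_le.mp (le_refl |b|)
    have habs1 := abs_nonneg a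
    have habs2 := abs_nonneg b
    rintro x ((hx | hx) | ⟨y, hy, rfl⟩)
    · have h1 := hEa x hx; have h2 := hEb x hx
      rw [abs_le]; constructor <;> linarith [ha'.1, hb'.2]
    · rw [abs_le]; constructor <;> linarith [ha'.1, hb'.1, hb'.2, hx.1, hx.2]
    · have h1 := hEa y hy; have h2 := hEb y hy
      simp only
      rw [abs_le]; constructor <;> linarith [ha'.1, hb'.2]
  -- packings of the doubled family
  have hpack : ∀ s : Finset ℝ, Pack E' δ' s → ∑ x ∈ s, 2 * δ' x ≤ 2 * K := by
    intro s hs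
    set s1 := s.filter (fun x => x ≤ b) with hs1
    set s2 := s.filter (fun x => b < x ∧ x < b + ε) with hs2
    set s3 := s.filter (fun x => b + ε ≤ x) with hs3
    have hsplit : ∑ x ∈ s, 2 * δ' x = ∑ x ∈ s1, 2 * δ' x + ∑ x ∈ s2, 2 * δ' x
        + ∑ x ∈ s3, 2 * δ' x := by
      rw [hs1, hs2, hs3, Finset.sum_filter, Finset.sum_filter, Finset.sum_filter,
        ← Finset.sum_add_distrib, ← Finset.sum_add_distrib]
      apply Finset.sum_congr rfl
      intro x _
      rcases le_or_gt x b with h | h
      · rw [if_pos h, if_neg (by intro h'; linarith [h'.1]), if_neg (by linarith)]; ring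
      · rcases lt_or_ge x (b + ε) with h' | h'
        · rw [if_neg (not_le.mpr h), if_pos ⟨h, h'⟩, if_neg (not_le.mpr h')]; ring
        · rw [if_neg (not_le.mpr h), if_neg (by intro h''; linarith [h''.2]), if_pos h']; ring
    have e1 : ∑ x ∈ s1, 2 * δ' x = ∑ x ∈ s1, 2 * δ x :=
      Finset.sum_congr rfl fun x hx => by rw [d1 x (Finset.mem_filter.mp hx).2]
    set s3' := s3.image (fun x => x - T) with hs3'
    have e3 : ∑ x ∈ s3, 2 * δ' x = ∑ y ∈ s3', 2 * δ y := by
      rw [hs3', Finset.sum_image (fun x _ y _ h => by simpa using h)]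
      exact Finset.sum_congr rfl fun x hx => by rw [d3 x (Finset.mem_filter.mp hx).2]
    have p1 : Pack E δ s1 := by
      refine ⟨fun x hx => m1 x (hs.1 x (Finset.mem_filter.mp hx).1) (Finset.mem_filter.mp hx).2, ?_⟩
      intro x hx y hy hxy
      have hx' := Finset.mem_filter.mp hx
      have hy' := Finset.mem_filter.mp hy
      have := hs.2 x hx'.1 y hy'.1 hxy
      rwa [d1 x hx'.2, d1 y hy'.2] at this
    have p3 : Pack E δ s3' := by
      refine ⟨?_, ?_⟩
      · intro y hy
        obtain ⟨x, hx, rfl⟩ := Finset.mem_image.mp hy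
        have hx' := Finset.mem_filter.mp hx
        exact m3 x (hs.1 x hx'.1) hx'.2
      · intro y hy z hz hyz
        obtain ⟨x, hx, rfl⟩ := Finset.mem_image.mp hy
        obtain ⟨w, hw, rfl⟩ := Finset.mem_image.mp hz
        have hx' := Finset.mem_filter.mp hx
        have hw' := Finset.mem_filter.mp hw
        have := hs.2 x hx'.1 w hw'.1 (fun e => hyz (by rw [e]))
        rw [d3 x hx'.2, d3 w hw'.2, Set.disjoint_left] at this
        rw [Set.disjoint_left]
        intro u hu hu'
        exact this (a := u + T) ⟨by linarith [hu.1], by linarith [hu.2]⟩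
          ⟨by linarith [hu'.1], by linarith [hu'.2]⟩
    rcases s2.eq_empty_or_nonempty with h2 | ⟨x0, hx0⟩
    · rw [hsplit, e1, e3, h2]
      have := hpk s1 p1
      have := hpk s3' p3
      simp only [Finset.sum_empty]
      linarith
    · have hx0' := Finset.mem_filter.mp hx0
      obtain ⟨hx0s, hx0b, hx0e⟩ := hx0'
      have hd0 := d2 x0 hx0b hx0e
      -- only one gap point
      have hs2s : s2 = {x0} := by
        apply Finset.eq_singleton_iff_unique_mem.mpr
        refine ⟨hx0, fun y hy => ?_⟩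
        by_contra hne'
        obtain ⟨hys, hyb, hye⟩ := Finset.mem_filter.mp hy
        have := hs.2 y hys x0 hx0s hne'
        rw [hd0, d2 y hyb hye, Set.disjoint_left] at this
        exact this (a := b) ⟨by linarith, by linarith⟩ ⟨by linarith, by linarith⟩
      have e2 : ∑ x ∈ s2, 2 * δ' x = 2 * (δ a + δ b) := by rw [hs2s, Finset.sum_singleton, hd0]
      have q1 : ∀ x ∈ s1, Disjoint (Set.Ioo (x - δ x) (x + δ x)) (Set.Ioo (b - δ b) (b + δ b)) := by
        intro x hx
        obtain ⟨hxs, hxb⟩ := Finset.mem_filter.mp hx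
        have := hs.2 x hxs x0 hx0s (by intro e; rw [e] at hxb; linarith)
        rw [d1 x hxb, hd0] at this
        exact this.mono_right (Set.Ioo_subset_Ioo (by linarith) (by linarith))
      have q3 : ∀ y ∈ s3', Disjoint (Set.Ioo (y - δ y) (y + δ y)) (Set.Ioo (a - δ a) (a + δ a)) := by
        intro y hy
        obtain ⟨x, hx, rfl⟩ := Finset.mem_image.mp hy
        obtain ⟨hxs, hxb⟩ := Finset.mem_filter.mp hx
        have := hs.2 x hxs x0 hx0s (by intro e; rw [e] at hxb; linarith)
        rw [d3 x hxb, hd0, Set.disjoint_left] at this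
        rw [Set.disjoint_left]
        intro u hu hu'
        exact this (a := u + T) ⟨by linarith [hu.1], by linarith [hu.2]⟩
          ⟨by rw [hT]; linarith [hu'.1], by rw [hT]; linarith [hu'.2]⟩
      have hb1 : b ∉ s1 := by
        intro hb1
        have := q1 b hb1
        rw [Set.disjoint_left] at this
        exact this (a := b) ⟨by linarith, by linarith⟩ ⟨by linarith, by linarith⟩
      have ha3 : a ∉ s3' := by
        intro ha3
        have := q3 a ha3
        rw [Set.disjoint_left] at this
        exact this (a := a) ⟨by linarith, by linarith⟩ ⟨by linarith, by linarith⟩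
      have ins : ∀ (u : Finset ℝ) (c : ℝ), c ∈ E → Pack E δ u →
          (∀ x ∈ u, Disjoint (Set.Ioo (x - δ x) (x + δ x)) (Set.Ioo (c - δ c) (c + δ c))) →
          Pack E δ (insert c u) := by
        intro u c hc hu hq
        refine ⟨?_, ?_⟩
        · intro y hy
          rcases Finset.mem_insert.mp hy with rfl | hy
          · exact hc
          · exact hu.1 y hy
        · intro y hy z hz hyz
          rw [Finset.mem_insert] at hy hz
          rcases hy with hy | hy <;> rcases hz with hz | hz
          · exact absurd (hy.trans hz.symm) hyz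
          · rw [hy]; exact (hq z hz).symm
          · rw [hz]; exact hq y hy
          · exact hu.2 y hy z hz hyz
      have i1 := hpk _ (ins s1 b hbE p1 q1)
      have i3 := hpk _ (ins s3' a haE p3 q3)
      rw [Finset.sum_insert hb1] at i1
      rw [Finset.sum_insert ha3] at i3
      rw [hsplit, e1, e2, e3]
      linarith
  have hcore := core hA hW hbound hδ'0 hpack
  have hval : A * (2 * K) = 2 * (volume E).toReal := by rw [hK]; field_simp
  rw [hval, ENNReal.ofReal_mul (by norm_num), ENNReal.ofReal_toReal hfin] at hcore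
  have hvol : volume E' = volume E + ENNReal.ofReal ε + volume E := by
    rw [hE', measure_union, measure_union, Real.volume_Ioo]
    · have h1 : volume ((fun x => x + T) '' E) = volume E := by
        rw [Set.image_add_right]
        exact measure_preimage_add_right volume (-T) E
      rw [h1]; congr 3; ring
    · rw [Set.disjoint_left]
      intro x hx hx'
      have := hEb x hx; linarith [hx'.1]
    · exact measurableSet_Ioo
    · rw [Set.disjoint_left]
      rintro x (hx | hx) ⟨y, hy, rfl⟩
      · have h1 := hEb _ hx; have h2 := hEa y hy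
        simp only [hT] at h1; linarith
      · have h1 := hx.2; have h2 := hEa y hy
        simp only [hT] at h1; linarith
    · rw [Set.image_add_right]
      exact measurable_add_const _ hE.measurableSet
  rw [hvol, show ENNReal.ofReal 2 = 2 by simp, two_mul] at hcore
  have hlt : volume E + volume E < volume E + ENNReal.ofReal ε + volume E := by
    rw [add_right_comm]
    exact ENNReal.lt_add_right (by simp [hfin]) (by simpa using hε0)
  exact absurd hcore (not_le.mpr hlt)


lemma adm_mono {c c' : ℝ} (hcc : c ≤ c') (h : Admissible c') : Admissible c := by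
  intro E hE δ hδ
  obtain ⟨F, hF, hFc, hd, hs⟩ := h E hE δ hδ
  exact ⟨F, hF, hFc, hd, le_trans (by gcongr) hs⟩

lemma adm_nonpos {c : ℝ} (hc : c ≤ 0) : Admissible c := by
  intro E hE δ hδ
  exact ⟨∅, by simp, by simp, by simp, by simp [ENNReal.ofReal_of_nonpos hc]⟩

/-- a crude positive constant is admissible (Vitali) -/
lemma adm_fifth : Admissible (1 / 5) := by
  intro E hE δ hδ
  obtain ⟨t, htE, htc⟩ := hE.elim_nhds_subcover (fun x => Metric.ball x (δ x))
    (fun x hx => Metric.ball_mem_nhds x (hδ x hx))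
  obtain ⟨R, hR⟩ : ∃ R : ℝ, ∀ a ∈ (t : Set ℝ), δ a ≤ R := by
    obtain ⟨R, hR⟩ := (t.finite_toSet.image δ).bddAbove
    exact ⟨R, fun a ha => hR ⟨a, ha, rfl⟩⟩
  obtain ⟨u, hut, hud, huc⟩ := Vitali.exists_disjoint_subfamily_covering_enlargement_closedBall
    (t : Set ℝ) (fun x : ℝ => x) δ R hR 5 (by norm_num)
  have hufin : u.Finite := t.finite_toSet.subset hut
  refine ⟨u, fun x hx => htE x (by simpa using hut hx), hufin.countable, ?_, ?_⟩
  · intro x hx y hy hxy
    have h1 := hud hx hy hxy
    refine Disjoint.mono ?_ ?_ h1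
    · intro z hz; rw [Metric.mem_closedBall, Real.dist_eq, abs_le]
      exact ⟨by linarith [hz.1], by linarith [hz.2]⟩
    · intro z hz; rw [Metric.mem_closedBall, Real.dist_eq, abs_le]
      exact ⟨by linarith [hz.1], by linarith [hz.2]⟩
  · have hcov : E ⊆ ⋃ x ∈ u, Metric.closedBall x (5 * δ x) := by
      intro z hz
      obtain ⟨x, hx, hzx⟩ := Set.mem_iUnion₂.mp (htc hz)
      obtain ⟨y, hy, hxy⟩ := huc x (by simpa using hx)
      exact Set.mem_iUnion₂.mpr ⟨y, hy, hxy (Metric.ball_subset_closedBall hzx)⟩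
    have h1 : volume E ≤ ∑' x : u, ENNReal.ofReal 5 * volume (Set.Ioo ((x : ℝ) - δ x) (x + δ x)) := by
      have : Countable u := hufin.countable.to_subtype
      calc volume E ≤ volume (⋃ x ∈ u, Metric.closedBall x (5 * δ x)) := measure_mono hcov
        _ = volume (⋃ x : u, Metric.closedBall (x : ℝ) (5 * δ x)) := by rw [Set.biUnion_eq_iUnion]
        _ ≤ ∑' x : u, volume (Metric.closedBall (x : ℝ) (5 * δ x)) := measure_iUnion_le _
        _ = ∑' x : u, ENNReal.ofReal 5 * volume (Set.Ioo ((x : ℝ) - δ x) (x + δ x)) := by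
            congr 1
            ext x
            rw [Real.volume_closedBall, Real.volume_Ioo, ← ENNReal.ofReal_mul (by norm_num)]
            congr 1; ring
    rw [ENNReal.tsum_mul_left] at h1
    calc ENNReal.ofReal (1 / 5) * volume E
        ≤ ENNReal.ofReal (1 / 5) * (ENNReal.ofReal 5 *
            ∑' x : u, volume (Set.Ioo ((x : ℝ) - δ x) (x + δ x))) := by gcongr
      _ = ∑' x : u, volume (Set.Ioo ((x : ℝ) - δ x) (x + δ x)) := by
          rw [← mul_assoc, ← ENNReal.ofReal_mul (by norm_num)]
          norm_num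

lemma weak_mono {A A' : ℝ} (h : A ≤ A') (hW : WeakType A) : WeakType A' := by
  intro f hf t ht
  refine (hW f hf t ht).trans (ENNReal.ofReal_le_ofReal ?_)
  apply div_le_div_of_nonneg_right _ ht.le
  exact mul_le_mul_of_nonneg_right h (integral_nonneg fun x => abs_nonneg _)

lemma weak_closed {A : ℝ} (h : ∀ A' : ℝ, A < A' → WeakType A') : WeakType A := by
  intro f hf t ht
  have hcont : Filter.Tendsto (fun A' : ℝ => ENNReal.ofReal (A' * (∫ y, |f y|) / t))
      (nhdsWithin A (Ioi A)) (nhds (ENNReal.ofReal (A * (∫ y, |f y|) / t))) := by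
    apply Filter.Tendsto.mono_left _ nhdsWithin_le_nhds
    apply (ENNReal.continuous_ofReal.tendsto _).comp
    exact ((Filter.tendsto_id).mul_const _).div_const _
  apply ge_of_tendsto hcont
  filter_upwards [self_mem_nhdsWithin] with A' hA'
  exact h A' hA' f hf t ht

lemma one_le_of_weak {A : ℝ} (h : WeakType A) : 1 ≤ A := by
  by_contra hA
  push Not at hA
  obtain ⟨t, hAt, ht1⟩ := exists_between (max_lt hA (show (0 : ℝ) < 1 by norm_num))
  have ht0 : 0 < t := lt_of_le_of_lt (le_max_right _ _) hAt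
  have hAt' : A < t := lt_of_le_of_lt (le_max_left _ _) hAt
  set f : ℝ → ℝ := (Ioo (0 : ℝ) 1).indicator (fun _ => (1 : ℝ)) with hf
  have hfi : Integrable f := by
    rw [hf, integrable_indicator_iff measurableSet_Ioo]
    exact integrableOn_const (by simp) (by simp)
  have hfabs : ∀ y, |f y| = f y := fun y => abs_of_nonneg (by
    rw [hf]; exact Set.indicator_nonneg (fun _ _ => by norm_num) y)
  have hint : ∫ y, |f y| = 1 := by
    simp only [hfabs]
    rw [hf, integral_indicator measurableSet_Ioo]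
    simp
  have h1 := h f hfi t ht0
  have h2 : Ioo (0 : ℝ) 1 ⊆ {x : ℝ | ∃ r : ℝ, 0 < r ∧
      t < (∫ y in Set.Ioo (x - r) (x + r), |f y|) / (2 * r)} := by
    intro x hx
    set r := min x (1 - x) with hr
    have hr0 : 0 < r := lt_min hx.1 (by linarith [hx.2])
    refine ⟨r, hr0, ?_⟩
    have h3 : ∫ y in Set.Ioo (x - r) (x + r), |f y| = 2 * r := by
      have : ∫ y in Set.Ioo (x - r) (x + r), |f y| = ∫ y in Set.Ioo (x - r) (x + r), (1 : ℝ) := by
        apply setIntegral_congr_fun measurableSet_Ioo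
        intro y hy
        have hy' : y ∈ Ioo (0 : ℝ) 1 := by
          have e1 : r ≤ x := min_le_left _ _
          have e2 : r ≤ 1 - x := min_le_right _ _
          exact ⟨by linarith [hy.1], by linarith [hy.2]⟩
        simp only [hfabs]
        rw [hf, Set.indicator_of_mem hy']
      rw [this]
      simp only [integral_const, MeasurableSet.univ, measureReal_restrict_apply, Set.univ_inter,
        smul_eq_mul, mul_one]
      rw [Measure.real, Real.volume_Ioo, ENNReal.toReal_ofReal (by linarith)]
      ring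
    rw [h3, div_self (by positivity)]
    exact ht1
  have h4 : (1 : ENNReal) ≤ ENNReal.ofReal (A * 1 / t) := by
    calc (1 : ENNReal) = volume (Ioo (0 : ℝ) 1) := by simp
      _ ≤ _ := measure_mono h2
      _ ≤ _ := by rw [hint] at h1; exact h1
  rw [← ENNReal.ofReal_one, ENNReal.ofReal_le_ofReal_iff'] at h4
  rcases h4 with h4 | h4
  · rw [le_div_iff₀ ht0] at h4; linarith
  · norm_num at h4

theorem best_exists : ∃ C : ℝ, 1 ≤ C ∧ WeakType C ∧ (∀ A : ℝ, WeakType A → C ≤ A) ∧
    (∀ c : ℝ, Admissible c ↔ c ≤ 1 / C) := by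
  have h5 : WeakType 5 := weak_of_adm (by norm_num) adm_fifth
  have hbdd : BddBelow {A : ℝ | WeakType A} := ⟨1, fun A hA => one_le_of_weak hA⟩
  set C := sInf {A : ℝ | WeakType A} with hC
  have hC1 : 1 ≤ C := le_csInf ⟨5, h5⟩ fun A hA => one_le_of_weak hA
  have hCpos : 0 < C := by linarith
  have hCW : WeakType C := by
    apply weak_closed
    intro A' hA'
    obtain ⟨A, hA, hAA'⟩ := exists_lt_of_csInf_lt ⟨5, h5⟩ hA'
    exact weak_mono hAA'.le hA
  have hmin : ∀ A : ℝ, WeakType A → C ≤ A := fun A hA => csInf_le hbdd hA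
  refine ⟨C, hC1, hCW, hmin, fun c => ⟨fun hc => ?_, fun hc => ?_⟩⟩
  · rcases le_or_gt c 0 with h | h
    · exact h.trans (by positivity)
    · have h1 : Admissible (1 / (1 / c)) := by rwa [one_div_one_div]
      have h2 := hmin _ (weak_of_adm (by positivity) h1)
      rw [le_div_iff₀ hCpos]
      rw [le_div_iff₀ h] at h2
      linarith
  · exact adm_mono hc (adm_of_weak hCpos hCW)


/-- Part 1: for every `A > 0`, the weak type (1,1) inequality holds with constant `A` if and only
if `1/A` is admissible.  Part 2: the best weak type constant `C` exists, `C ≥ 1`, and the set of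
admissible numbers is exactly the closed half line `c ≤ 1/C`; so `c₁ = 1/C`, and `c₁` itself is
admissible.  Part 3: with the value `C = (11+√61)/12` of Melas' theorem this half line is
`c ≤ (11-√61)/5`. -/
theorem result :
    (∀ A : ℝ, 0 < A → (WeakType A ↔ Admissible (1 / A))) ∧
    (∃ C : ℝ, 1 ≤ C ∧ IsBestWeakConstant C ∧ ∀ c : ℝ, Admissible c ↔ c ≤ 1 / C) ∧
    (IsBestWeakConstant ((11 + Real.sqrt 61) / 12) →
      ∀ c : ℝ, Admissible c ↔ c ≤ (11 - Real.sqrt 61) / 5) := by
  obtain ⟨C, hC1, hCW, hCm, hCa⟩ := best_exists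
  refine ⟨fun A hA => ⟨adm_of_weak hA, weak_of_adm hA⟩, ⟨C, hC1, ⟨hCW, hCm⟩, hCa⟩, ?_⟩
  rintro ⟨h1, h2⟩ c
  have he : C = (11 + Real.sqrt 61) / 12 := le_antisymm (hCm _ h1) (h2 _ hCW)
  have hs : Real.sqrt 61 * Real.sqrt 61 = 61 := Real.mul_self_sqrt (by norm_num)
  have hs0 : 0 ≤ Real.sqrt 61 := Real.sqrt_nonneg _
  have hv : 1 / ((11 + Real.sqrt 61) / 12) = (11 - Real.sqrt 61) / 5 := by
    rw [div_eq_div_iff (by positivity) (by norm_num)]
    nlinarith
  rw [hCa, he, hv]

end Pool.Agent.Results.MP_ebd0f7_an.WeakTypeConstant
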